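import Mathlib
import Pool.Agent.MP_684c87_al.Walk

/-!
# An amenable weakly branch group that is not Liouville

The group acts on the regular rooted tree `X*` of words over a finite alphabet; it is contracting
and self-replicating, it is an extension of a locally finite group by an abelian group, and the
measure is symmetric.
-/

set_option autoImplicit false

namespace Pool.Agent.Results.MP_684c87_al.AmenableNotLiouville

/-- Automorphisms of the rooted tree of words: permutations preserving the length and the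
initial-segment order. -/
def IsTreeAut {X : Type} (g : Equiv.Perm (List X)) : Prop :=
  (∀ v, (g v).length = v.length) ∧ ∀ u v, g u <+: g v ↔ u <+: v

/-- Level-transitive with all rigid vertex stabilisers nontrivial. -/
def IsWeaklyBranch {X : Type} (G : Subgroup (Equiv.Perm (List X))) : Prop :=
  (∀ u v : List X, u.length = v.length → ∃ g ∈ G, g u = v) ∧
    ∀ v : List X, ∃ g ∈ G, g ≠ 1 ∧ ∀ w, ¬ v <+: w → g w = w

/-- `h` is the section of `g` at the vertex `v`. -/
def IsSection {X : Type} (g : Equiv.Perm (List X)) (v : List X) (h : Equiv.Perm (List X)) : Prop :=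
  ∀ w, g (v ++ w) = g v ++ h w

/-- All sections of elements of `G` lie in `G`. -/
def IsSelfSimilar {X : Type} (G : Subgroup (Equiv.Perm (List X))) : Prop :=
  ∀ g ∈ G, ∀ v, ∃ h ∈ G, IsSection g v h

/-- Every element of `G` is the section at `x` of an element of `G` fixing `x`. -/
def IsSelfReplicating {X : Type} (G : Subgroup (Equiv.Perm (List X))) : Prop :=
  ∀ x : X, ∀ h ∈ G, ∃ g ∈ G, g [x] = [x] ∧ IsSection g [x] h

/-- All sufficiently deep sections of each element lie in one finite subset of `G`. -/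
def IsContracting {X : Type} (G : Subgroup (Equiv.Perm (List X))) : Prop :=
  ∃ N : Set (Equiv.Perm (List X)), N.Finite ∧ N ⊆ G ∧
    ∀ g ∈ G, ∃ n, ∀ v : List X, n ≤ v.length → ∃ h ∈ N, IsSection g v h

/-- There is a left-invariant finitely additive probability measure on all subsets. -/
def IsAmenable (G : Type) [Group G] : Prop :=
  ∃ m : Set G → ℝ, (∀ A, 0 ≤ m A) ∧ m Set.univ = 1 ∧
    (∀ A B, Disjoint A B → m (A ∪ B) = m A + m B) ∧
    ∀ (g : G) (A : Set G), m ((fun x => g * x) '' A) = m A

/-- There is a locally finite normal subgroup with abelian quotient. -/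
def IsLocallyFiniteByAbelian (G : Type) [Group G] : Prop :=
  ∃ N : Subgroup G, N.Normal ∧ (∀ a b : G, a * b * a⁻¹ * b⁻¹ ∈ N) ∧
    ∀ S : Finset G, (S : Set G) ⊆ N → Finite (Subgroup.closure (S : Set G))

/-- A finitely supported probability measure whose support generates `G` as a semigroup. -/
def IsGeneratingProb {G : Type} [Group G] (μ : G →₀ ℝ) : Prop :=
  (∀ g, 0 ≤ μ g) ∧ (μ.sum fun _ a => a) = 1 ∧ Subsemigroup.closure (μ.support : Set G) = ⊤

/-- Every bounded `μ`-harmonic function is constant. -/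
def IsLiouville {G : Type} [Group G] (μ : G →₀ ℝ) : Prop :=
  ∀ f : G → ℝ, (∃ C, ∀ g, |f g| ≤ C) → (∀ g, f g = μ.sum fun h a => a * f (g * h)) →
    ∀ g h, f g = f h

open Pool.Agent.MP_684c87_al in
theorem result : ∃ (X : Type) (_ : Fintype X) (G : Subgroup (Equiv.Perm (List X))),
    2 ≤ Fintype.card X ∧ (∀ g ∈ G, IsTreeAut g) ∧ G.FG ∧ IsWeaklyBranch G ∧ IsAmenable G ∧
    IsSelfSimilar G ∧ IsSelfReplicating G ∧ IsContracting G ∧ IsLocallyFiniteByAbelian G ∧
    ∃ μ : G →₀ ℝ, IsGeneratingProb μ ∧ (∀ g, μ g⁻¹ = μ g) ∧ ¬ IsLiouville μ := by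
  classical
  refine ⟨X, inferInstance, Γ, by simp, fun g hg => ⟨length_apply hg, isPrefix_apply_iff hg⟩,
    (Subgroup.fg_iff _).2 ⟨_, rfl, Set.finite_range _⟩, ⟨level_transitive, exists_rist⟩,
    amenable, fun g hg v => exists_sec hg v, fun x h hh => ?_, contracting, ?_, ?_⟩
  · obtain ⟨g, hg, H⟩ := self_replicating x hh
    have h1 : g [x] = [x] := by
      rw [H, List.length_eq_zero_iff.1 (length_apply hh [])]
    exact ⟨g, hg, h1, fun w => by rw [h1]; exact H w⟩
  · let ψ : Γ →* Multiplicative V := MonoidHom.mk' (fun g => Multiplicative.ofAdd (φ g))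
      fun a b => by rw [φ_mul, ofAdd_add]
    refine ⟨ψ.ker, inferInstance, fun a b => ?_, fun S hS => ?_⟩
    · rw [MonoidHom.mem_ker, map_mul, map_mul, map_mul, map_inv, map_inv, mul_inv_cancel_comm,
        mul_inv_cancel]
    · exact (locally_finite S fun s hs => hS hs).to_subtype
  let μ : Γ →₀ ℝ := ∑ i, Finsupp.single (sg i) (1 / 11)
  have hμ : ∀ g, μ g = ∑ i, if sg i = g then (1 / 11 : ℝ) else 0 := fun g => by
    simp only [μ, Finsupp.finsetSum_apply, Finsupp.single_apply]
  have hsum : ∀ F : Γ → ℝ, (μ.sum fun h a => a * F h) = ∑ i, 1 / 11 * F (sg i) := fun F => by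
    simp only [μ]
    rw [← Finsupp.sum_finsetSum_index (by simp) (by simp [add_mul])]
    refine Finset.sum_congr rfl fun i _ => ?_
    rw [Finsupp.sum_single_index (by simp)]
  have hinv : ∀ i, sg (ginv i) = (sg i)⁻¹ := fun i => Subtype.ext (gen_ginv i)
  have hsupp : ∀ i, sg i ∈ μ.support := fun i => by
    rw [Finsupp.mem_support_iff, hμ]
    refine (Finset.sum_pos' (fun j _ => by positivity) ⟨i, Finset.mem_univ _, ?_⟩).ne'
    simp
  refine ⟨μ, ⟨fun g => ?_, ?_, ?_⟩, fun g => ?_, fun h => ?_⟩
  · rw [hμ]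
    positivity
  · have := hsum fun _ => 1
    simp only [mul_one] at this
    rw [this]
    simp
  · rw [eq_top_iff]
    rintro ⟨g, hg⟩ -
    have key : ∃ hg : g ∈ Γ, (⟨g, hg⟩ : Γ) ∈ Subsemigroup.closure (μ.support : Set Γ) := by
      refine Γ_induction_gen (p := fun g => ∃ hg : g ∈ Γ,
        (⟨g, hg⟩ : Γ) ∈ Subsemigroup.closure (μ.support : Set Γ)) ⟨Γ.one_mem, ?_⟩ ?_ hg
      · have h1 := Subsemigroup.mul_mem _ (Subsemigroup.subset_closure (s := (μ.support : Set Γ))
          (hsupp none)) (Subsemigroup.subset_closure (hsupp none))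
        have h2 : sg none * sg none = ⟨1, Γ.one_mem⟩ := Subtype.ext cc_mul_cc
        rwa [h2] at h1
      · rintro i g - ⟨hg, h⟩
        exact ⟨Γ.mul_mem (gen_mem i) hg, Subsemigroup.mul_mem _
          (Subsemigroup.subset_closure (s := (μ.support : Set Γ)) (hsupp i)) h⟩
    exact key.2
  · rw [hμ, hμ]
    refine Fintype.sum_equiv (Function.Involutive.toPerm ginv ginv_ginv) _ _ fun i => ?_
    simp only [Function.Involutive.coe_toPerm, hinv, inv_eq_iff_eq_inv]
  · obtain ⟨u, hu, hb, g, g', hne⟩ := exists_harmonic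
    exact hne (h u ⟨2, hb⟩ (fun g => by rw [hsum fun h => u (g * h)]; exact hu g) g g')

end Pool.Agent.Results.MP_684c87_al.AmenableNotLiouville
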