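import Pool.Agent.MP_684c87_al.NE.Amen
import Pool.Agent.MP_684c87_al.NE.Branch
import Pool.Agent.MP_684c87_al.NE.Walk2

/-!
# An amenable contracting branch group outside the SL-elementary class

The group acts on the regular rooted tree `X*` of words over a finite alphabet. It is contracting,
regular branch over itself and amenable, it is not Liouville for a symmetric measure, and it cannot
be built from SL groups by subgroups, quotients, extensions and direct limits.
-/

set_option autoImplicit false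

namespace Pool.Agent.Results.MP_684c87_al.NotElementary

/-- Automorphisms of the rooted tree of words: permutations preserving the length and the
initial-segment order. -/
def IsTreeAut {X : Type} (g : Equiv.Perm (List X)) : Prop :=
  (∀ v, (g v).length = v.length) ∧ ∀ u v, g u <+: g v ↔ u <+: v

/-- Level-transitive with all rigid vertex stabilisers nontrivial. -/
def IsWeaklyBranch {X : Type} (G : Subgroup (Equiv.Perm (List X))) : Prop :=
  (∀ u v : List X, u.length = v.length → ∃ g ∈ G, g u = v) ∧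
    ∀ v : List X, ∃ g ∈ G, g ≠ 1 ∧ ∀ w, ¬ v <+: w → g w = w

/-- The map acting as `h ∈ G` below a vertex `v` and trivially elsewhere lies in `G`. -/
def IsBranchOverItself {X : Type} (G : Subgroup (Equiv.Perm (List X))) : Prop :=
  ∀ v : List X, ∀ h ∈ G, ∃ g ∈ G, (∀ w, g (v ++ w) = v ++ h w) ∧ ∀ w, ¬ v <+: w → g w = w

/-- `h` is the section of `g` at the vertex `v`. -/
def IsSection {X : Type} (g : Equiv.Perm (List X)) (v : List X) (h : Equiv.Perm (List X)) : Prop :=
  ∀ w, g (v ++ w) = g v ++ h w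

/-- All sections of elements of `G` lie in `G`. -/
def IsSelfSimilar {X : Type} (G : Subgroup (Equiv.Perm (List X))) : Prop :=
  ∀ g ∈ G, ∀ v, ∃ h ∈ G, IsSection g v h

/-- All sufficiently deep sections of each element lie in one finite subset of `G`. -/
def IsContracting {X : Type} (G : Subgroup (Equiv.Perm (List X))) : Prop :=
  ∃ N : Set (Equiv.Perm (List X)), N.Finite ∧ N ⊆ G ∧
    ∀ g ∈ G, ∃ n, ∀ v : List X, n ≤ v.length → ∃ h ∈ N, IsSection g v h

/-- There is a left-invariant finitely additive probability measure on all subsets. -/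
def IsAmenable (G : Type) [Group G] : Prop :=
  ∃ m : Set G → ℝ, (∀ A, 0 ≤ m A) ∧ m Set.univ = 1 ∧
    (∀ A B, Disjoint A B → m (A ∪ B) = m A + m B) ∧
    ∀ (g : G) (A : Set G), m ((fun x => g * x) '' A) = m A

/-- A finitely supported probability measure whose support generates `G` as a semigroup. -/
def IsGeneratingProb {G : Type} [Group G] (μ : G →₀ ℝ) : Prop :=
  (∀ g, 0 ≤ μ g) ∧ (μ.sum fun _ a => a) = 1 ∧ Subsemigroup.closure (μ.support : Set G) = ⊤

/-- Every bounded `μ`-harmonic function is constant. -/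
def IsLiouville {G : Type} [Group G] (μ : G →₀ ℝ) : Prop :=
  ∀ f : G → ℝ, (∃ C, ∀ g, |f g| ≤ C) → (∀ g, f g = μ.sum fun h a => a * f (g * h)) →
    ∀ g h, f g = f h

/-- Every subgroup is Liouville for all its symmetric finitely supported generating measures. -/
def IsSymSL (G : Type) [Group G] : Prop :=
  ∀ (H : Subgroup G) (μ : H →₀ ℝ), IsGeneratingProb μ → (∀ h, μ h⁻¹ = μ h) → IsLiouville μ

/-- `G` lies in every class of groups that contains the groups with `IsSymSL`, is closed under
subgroups, quotients and extensions, and contains a group as soon as it contains all its finitely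
generated subgroups. -/
def IsSLElementary (G : Type) [Group G] : Prop :=
  ∀ 𝒞 : (H : Type) → [Group H] → Prop,
    (∀ (H : Type) [Group H], IsSymSL H → 𝒞 H) →
    (∀ (H K : Type) [Group H] [Group K] (f : H →* K), Function.Injective f → 𝒞 K → 𝒞 H) →
    (∀ (H K : Type) [Group H] [Group K] (f : H →* K), Function.Surjective f → 𝒞 H → 𝒞 K) →
    (∀ (H : Type) [Group H] (N : Subgroup H) [N.Normal], 𝒞 N → 𝒞 (H ⧸ N) → 𝒞 H) →
    (∀ (H : Type) [Group H], (∀ K : Subgroup H, K.FG → 𝒞 K) → 𝒞 H) → 𝒞 G

open Pool.Agent.MP_684c87_al.NE in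
theorem result : ∃ (X : Type) (_ : Fintype X) (G : Subgroup (Equiv.Perm (List X))),
    2 ≤ Fintype.card X ∧ (∀ g ∈ G, IsTreeAut g) ∧ G.FG ∧ IsWeaklyBranch G ∧
    IsBranchOverItself G ∧ IsSelfSimilar G ∧ IsContracting G ∧ IsAmenable G ∧
    ¬ IsSLElementary G ∧
    ∃ μ : G →₀ ℝ, IsGeneratingProb μ ∧ (∀ g, μ g⁻¹ = μ g) ∧ ¬ IsLiouville μ := by
  obtain ⟨u, hu, hb, g₀, h₀, hn⟩ := harmonic
  refine ⟨Y, inferInstance, Δ, by simp, fun g hg => ⟨len hg, pre_iff hg⟩,
    (Subgroup.fg_iff _).2 ⟨_, rfl, Set.finite_range _⟩, ⟨level_trans, fun v => ?_⟩,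
    fun v h hh => ⟨_, atw_mem v hh, atw_append v h, fun _ => atw_fix v h⟩,
    fun g hg v => (cl_Δ.sec v g hg).2,
    ⟨N, finite_N, fun _ h => U_mem (N_U h), fun _ => good⟩, am_Δ, fun h => ?_, ?_⟩
  · refine ⟨_, atw_mem v (T_mem 1), fun e => ?_, fun _ => atw_fix v _⟩
    have : T 1 = 1 := atw_inj v (e.trans (map_one _).symm)
    exact one_ne_zero (T_free 1 fun n => by rw [this]; rfl)
  · refine h (fun H _ => ¬ Sub Δ H) (fun H _ hH hs => ?_)
      (fun H K _ _ f hf hK hH => hK (hH.of_inj f hf))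
      (fun H K _ _ f hf hH hK => hH (hK.of_surj f hf))
      (fun H _ M _ h1 h2 hH => (hH.ext normal_contains M).elim h1 h2) (fun H _ hH hs => ?_) sub_self
    · obtain ⟨K, μ, h1, h2, f, f1, f2, a, b, f3⟩ :=
        hs.base sgen closure_sgen u hu hb ⟨g₀, h₀, hn⟩
      exact f3 (hH K μ h1 h2 f f1 f2 a b)
    · obtain ⟨K, h1, h2⟩ := hs.fg sgen closure_sgen
      exact hH K h1 h2
  · obtain ⟨μ, h1, h2, h3⟩ := exists_measure sgen closure_sgen
    exact ⟨μ, h1, h2, fun h => hn (h u hb (fun g => (hu g).trans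
      (h3 fun k => u (g * k)).symm) g₀ h₀)⟩

/-- The question as posed: a finitely generated amenable weakly branch group that is not SL. -/
theorem q1 : ∃ (X : Type) (_ : Fintype X) (G : Subgroup (Equiv.Perm (List X))),
    2 ≤ Fintype.card X ∧ (∀ g ∈ G, IsTreeAut g) ∧ G.FG ∧ IsAmenable G ∧ IsWeaklyBranch G ∧
    ∃ μ : G →₀ ℝ, IsGeneratingProb μ ∧ ¬ IsLiouville μ := by
  obtain ⟨X, _, G, h1, h2, h3, h4, -, -, -, h5, -, μ, h6, -, h7⟩ := result
  exact ⟨X, _, G, h1, h2, h3, h5, h4, μ, h6, h7⟩

end Pool.Agent.Results.MP_684c87_al.NotElementary
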